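import Pool.Agent.Helper83.RK2.ThyDef

/-! # Pairs of maps which are related by a shift (RANK2, T1) -/

set_option autoImplicit false
set_option linter.unusedVariables false
set_option linter.unusedSectionVars false
set_option linter.unusedTactic false

open Set Metric Filter Topology

namespace Pool.Agent.Helper83.RK2.h58

open Pool.Agent.Helper83.RK2

variable {Z H : Type} [TopologicalSpace Z] [AddCommGroup H] {g : H → Z → Z} {p : ℕ}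

/-- a pair of admissible maps on `C`, equal on `Tp` and equal after the shift by `h` on `Tm` -/
structure Prs (𝒯 : Thy g p) (Tp Tm : Set Z) (h : H) (C : Set Z) (P0 P1 : Z → 𝒯.E) : Prop where
  a0 : 𝒯.Adm C P0
  a1 : 𝒯.Adm C P1
  rp : ∀ x ∈ C, x ∈ Tp → P1 x = P0 x
  rm : ∀ x ∈ C, x ∈ Tm → P1 (g h x) = P0 x

/-- the sets on which the relation is given -/
structure Str (𝒯 : Thy g p) (Tp Tm : Set Z) : Prop where
  p : Cl g Tp
  m : Cl g Tm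
  pm : Disjoint Tp Tm
  pW : Tp ⊆ 𝒯.W
  mW : Tm ⊆ 𝒯.W

theorem Cl.union {C D : Set Z} (hC : Cl g C) (hD : Cl g D) : Cl g (C ∪ D) :=
  ⟨hC.1.union hD.1, fun h x hx => hx.elim (fun a => Or.inl (hC.2 h x a))
    (fun a => Or.inr (hD.2 h x a))⟩

theorem Cl.inter {C D : Set Z} (hC : Cl g C) (hD : Cl g D) : Cl g (C ∩ D) :=
  ⟨hC.1.inter hD.1, fun h x hx => ⟨hC.2 h x hx.1, hD.2 h x hx.2⟩⟩

variable {𝒯 : Thy g p} {Tp Tm : Set Z} {h : H}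

theorem comm' (𝒯 : Thy g p) (a b : H) {x : Z} (hx : x ∈ 𝒯.W) : g a (g b x) = g b (g a x) := by
  rw [← 𝒯.gadd a b x hx, ← 𝒯.gadd b a x hx, add_comm]

open Classical in
/-- gluing two admissible maps -/
theorem glue (𝒯 : Thy g p) {C D : Set Z} (hC : Cl g C) (hD : Cl g D) {P Q : Z → 𝒯.E}
    (hP : 𝒯.Adm C P) (hQ : 𝒯.Adm D Q) (he : ∀ x ∈ C, x ∈ D → P x = Q x) :
    𝒯.Adm (C ∪ D) (fun x => if x ∈ C then P x else Q x) := by
  apply 𝒯.union hC hD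
  · exact 𝒯.congr hC hP (fun x hx => by simp [hx])
  · refine 𝒯.congr hD hQ (fun x hx => ?_)
    beta_reduce
    split_ifs with h1
    · exact (he x h1 hx).symm
    · rfl

open Classical in
/-- gluing pairs on closed invariant sets -/
theorem Prs.glue {C D : Set Z} (hC : Cl g C) (hD : Cl g D)
    {P0 P1 Q0 Q1 : Z → 𝒯.E} (hP : Prs 𝒯 Tp Tm h C P0 P1) (hQ : Prs 𝒯 Tp Tm h D Q0 Q1)
    (e0 : ∀ x ∈ C, x ∈ D → P0 x = Q0 x) (e1 : ∀ x ∈ C, x ∈ D → P1 x = Q1 x) :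
    Prs 𝒯 Tp Tm h (C ∪ D) (fun x => if x ∈ C then P0 x else Q0 x)
      (fun x => if x ∈ C then P1 x else Q1 x) := by
  refine ⟨h58.glue 𝒯 hC hD hP.a0 hQ.a0 e0, h58.glue 𝒯 hC hD hP.a1 hQ.a1 e1, ?_, ?_⟩
  · intro x hx hxp
    beta_reduce
    split_ifs with h1
    · exact hP.rp x h1 hxp
    · exact hQ.rp x (hx.resolve_left h1) hxp
  · intro x hx hxm
    beta_reduce
    by_cases h1 : x ∈ C
    · rw [if_pos h1, if_pos (hC.2 h x h1)]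
      exact hP.rm x h1 hxm
    · have h2 : x ∈ D := hx.resolve_left h1
      rw [if_neg h1]
      split_ifs with h3
      · rw [e1 _ h3 (hD.2 h x h2)]
        exact hQ.rm x h2 hxm
      · exact hQ.rm x h2 hxm

/-- restriction of pairs -/
theorem Prs.mono {C D : Set Z} {P0 P1 : Z → 𝒯.E} (hP : Prs 𝒯 Tp Tm h C P0 P1) (hD : D ⊆ C) :
    Prs 𝒯 Tp Tm h D P0 P1 :=
  ⟨𝒯.mono hP.a0 hD, 𝒯.mono hP.a1 hD, fun x hx => hP.rp x (hD hx), fun x hx => hP.rm x (hD hx)⟩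

theorem Prs.congr {C : Set Z} (hC : Cl g C) {P0 P1 Q0 Q1 : Z → 𝒯.E}
    (hP : Prs 𝒯 Tp Tm h C P0 P1) (e0 : EqOn P0 Q0 C) (e1 : EqOn P1 Q1 C) :
    Prs 𝒯 Tp Tm h C Q0 Q1 :=
  ⟨𝒯.congr hC hP.a0 e0, 𝒯.congr hC hP.a1 e1,
    fun x hx hp => by rw [← e0 hx, ← e1 hx]; exact hP.rp x hx hp,
    fun x hx hm => by rw [← e0 hx, ← e1 (hC.2 h x hx)]; exact hP.rm x hx hm⟩

open Classical in
/-- extension of the second map gives the first one on `Tp ∪ Tm` -/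
theorem Prs.fst_aux (hS : Str 𝒯 Tp Tm) {C : Set Z} (hC : Cl g C) {P0 P1 R : Z → 𝒯.E}
    (hP : Prs 𝒯 Tp Tm h C P0 P1) (hR : 𝒯.Adm 𝒯.W R) (hRe : EqOn R P1 C) :
    𝒯.Adm (C ∪ (Tp ∪ Tm)) (fun x => if x ∈ C then P0 x else if x ∈ Tp then R x else R (g h x)) := by
  have h1 : 𝒯.Adm (Tp ∪ Tm) (fun x => if x ∈ Tp then R x else R (g h x)) := by
    apply h58.glue 𝒯 hS.p hS.m (𝒯.mono hR hS.pW)
      (𝒯.act h hS.m hS.mW (𝒯.mono hR hS.mW))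
    intro x hx hx'
    exact absurd hx' (disjoint_left.1 hS.pm hx)
  apply h58.glue 𝒯 hC (Cl.union hS.p hS.m) hP.a0 h1
  intro x hx hx'
  split_ifs with h2
  · rw [hRe hx]; exact (hP.rp x hx h2).symm
  · rw [hRe (hC.2 h x hx)]; exact (hP.rm x hx (hx'.resolve_left h2)).symm

/-- extension of pairs -/
theorem Prs.ext (hS : Str 𝒯 Tp Tm) {C : Set Z} (hC : Cl g C) (hCW : C ⊆ 𝒯.W)
    {P0 P1 : Z → 𝒯.E} (hP : Prs 𝒯 Tp Tm h C P0 P1) :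
    ∃ Q0 Q1 : Z → 𝒯.E, Prs 𝒯 Tp Tm h 𝒯.W Q0 Q1 ∧ EqOn Q0 P0 C ∧ EqOn Q1 P1 C := by
  classical
  obtain ⟨Q1, hQ1, e1⟩ := 𝒯.ext hC hCW hP.a1
  have h1 := Prs.fst_aux hS hC hP hQ1 e1
  obtain ⟨Q0, hQ0, e0⟩ := 𝒯.ext (Cl.union hC (Cl.union hS.p hS.m))
    (union_subset hCW (union_subset hS.pW hS.mW)) h1
  refine ⟨Q0, Q1, ⟨hQ0, hQ1, ?_, ?_⟩, ?_, e1⟩
  · intro x hx hp
    rw [e0 (Or.inr (Or.inl hp))]
    beta_reduce
    split_ifs with h2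
    · rw [e1 h2]; exact hP.rp x h2 hp
    · rfl
  · intro x hx hm
    rw [e0 (Or.inr (Or.inr hm))]
    beta_reduce
    have h3 : x ∉ Tp := fun h' => disjoint_left.1 hS.pm h' hm
    rw [if_neg h3]
    split_ifs with h2
    · rw [e1 (hC.2 h x h2)]; exact hP.rm x h2 hm
    · rfl
  · intro x hx
    rw [e0 (Or.inl hx)]
    beta_reduce
    rw [if_pos hx]

end Pool.Agent.Helper83.RK2.h58
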