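import Pool.Agent.Helper58.RK2.DescentDef
import Pool.Agent.Helper38.RK2.Descent

/-! # The doubled theory (RANK2, T1, step C) -/

set_option autoImplicit false
set_option linter.unusedVariables false
set_option linter.unusedSectionVars false
set_option linter.unusedTactic false

open Set Metric Filter Topology

namespace Pool.Agent.Helper83.RK2

variable {Z H : Type} [TopologicalSpace Z] [AddCommGroup H] {g : H → Z → Z} {p : ℕ}

/-- Admissible related pairs. -/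
def Thy.Adm2 (𝒯 : Thy g p) (Tp Tm : Set Z) (h : H) (C : Set Z) (P : Z → 𝒯.E × 𝒯.E) : Prop :=
  𝒯.Adm C (fun x => (P x).1) ∧ 𝒯.Adm C (fun x => (P x).2) ∧ Rel g Tp Tm h C P

namespace h58

theorem str (𝒯 : Thy g p) {Tp Tm : Set Z} (hTp : Cl g Tp) (hTm : Cl g Tm)
    (hd : Disjoint Tp Tm) : Str 𝒯 (Tp ∩ 𝒯.W) (Tm ∩ 𝒯.W) :=
  ⟨Cl.inter hTp 𝒯.hW, Cl.inter hTm 𝒯.hW, hd.mono inter_subset_left inter_subset_left,
    inter_subset_right, inter_subset_right⟩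

theorem prs_of_adm2 {𝒯 : Thy g p} {Tp Tm : Set Z} {h : H} {C : Set Z} {P : Z → 𝒯.E × 𝒯.E}
    (hP : 𝒯.Adm2 Tp Tm h C P) :
    Prs 𝒯 (Tp ∩ 𝒯.W) (Tm ∩ 𝒯.W) h C (fun x => (P x).1) (fun x => (P x).2) :=
  ⟨hP.1, hP.2.1, fun x hx hp => hP.2.2.1 x hx hp.1, fun x hx hm => hP.2.2.2 x hx hm.1⟩

theorem adm2_of_prs {𝒯 : Thy g p} {Tp Tm : Set Z} {h : H} {C : Set Z} (hC : C ⊆ 𝒯.W)
    {P0 P1 : Z → 𝒯.E} (hP : Prs 𝒯 (Tp ∩ 𝒯.W) (Tm ∩ 𝒯.W) h C P0 P1) :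
    𝒯.Adm2 Tp Tm h C (fun x => (P0 x, P1 x)) :=
  ⟨hP.a0, hP.a1, fun x hx hp => hP.rp x hx ⟨hp, hC hx⟩, fun x hx hm => hP.rm x hx ⟨hm, hC hx⟩⟩

end h58

open h58

theorem Thy.Adm2.mono {𝒯 : Thy g p} {Tp Tm : Set Z} {h : H} {C C' : Set Z} {P : Z → 𝒯.E × 𝒯.E}
    (hP : 𝒯.Adm2 Tp Tm h C P) (hC : C' ⊆ C) : 𝒯.Adm2 Tp Tm h C' P :=
  ⟨𝒯.mono hP.1 hC, 𝒯.mono hP.2.1 hC, fun x hx => hP.2.2.1 x (hC hx),
    fun x hx => hP.2.2.2 x (hC hx)⟩

theorem Thy.Adm2.congr {𝒯 : Thy g p} {Tp Tm : Set Z} {h : H} {C : Set Z} (hC : Cl g C)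
    {P Q : Z → 𝒯.E × 𝒯.E} (hP : 𝒯.Adm2 Tp Tm h C P) (he : EqOn P Q C) : 𝒯.Adm2 Tp Tm h C Q := by
  refine ⟨𝒯.congr hC hP.1 (fun x hx => by beta_reduce; rw [he hx]),
    𝒯.congr hC hP.2.1 (fun x hx => by beta_reduce; rw [he hx]), fun x hx hp => ?_,
    fun x hx hm => ?_⟩
  · rw [← he hx]; exact hP.2.2.1 x hx hp
  · rw [← he hx, ← he (hC.2 h x hx)]; exact hP.2.2.2 x hx hm

open Classical in
theorem Thy.Adm2.glue {𝒯 : Thy g p} {Tp Tm : Set Z} {h : H} {C D : Set Z} (hC : Cl g C)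
    (hD : Cl g D) {P Q : Z → 𝒯.E × 𝒯.E} (hP : 𝒯.Adm2 Tp Tm h C P) (hQ : 𝒯.Adm2 Tp Tm h D Q)
    (he : ∀ x ∈ C, x ∈ D → P x = Q x) :
    𝒯.Adm2 Tp Tm h (C ∪ D) (fun x => if x ∈ C then P x else Q x) := by
  have h1 := h58.glue 𝒯 hC hD hP.1 hQ.1 (fun x hx hx' => by beta_reduce; rw [he x hx hx'])
  have h2 := h58.glue 𝒯 hC hD hP.2.1 hQ.2.1 (fun x hx hx' => by beta_reduce; rw [he x hx hx'])
  refine ⟨?_, ?_, ?_, ?_⟩
  · refine 𝒯.congr (Cl.union hC hD) h1 (fun x _ => ?_)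
    beta_reduce; split_ifs <;> rfl
  · refine 𝒯.congr (Cl.union hC hD) h2 (fun x _ => ?_)
    beta_reduce; split_ifs <;> rfl
  · intro x hx hp
    beta_reduce
    split_ifs with h3
    · exact hP.2.2.1 x h3 hp
    · exact hQ.2.2.1 x (hx.resolve_left h3) hp
  · intro x hx hm
    beta_reduce
    by_cases h3 : x ∈ C
    · rw [if_pos h3, if_pos (hC.2 h x h3)]
      exact hP.2.2.2 x h3 hm
    · have h4 : x ∈ D := hx.resolve_left h3
      rw [if_neg h3]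
      split_ifs with h5
      · rw [he _ h5 (hD.2 h x h4)]
        exact hQ.2.2.2 x h4 hm
      · exact hQ.2.2.2 x h4 hm

/-- Step C (helper58): extension to all of `W` -/
theorem Thy.ext2 (𝒯 : Thy g p) {Tp Tm : Set Z} (h : H) (hTp : Cl g Tp) (hTm : Cl g Tm)
    (hd : Disjoint Tp Tm) {C : Set Z} (hC : Cl g C) (hCW : C ⊆ 𝒯.W) {P : Z → 𝒯.E × 𝒯.E}
    (hP : 𝒯.Adm2 Tp Tm h C P) : ∃ Q, 𝒯.Adm2 Tp Tm h 𝒯.W Q ∧ EqOn Q P C := by
  obtain ⟨Q0, Q1, hQ, e0, e1⟩ := Prs.ext (str 𝒯 hTp hTm hd) hC hCW (prs_of_adm2 hP)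
  refine ⟨fun x => (Q0 x, Q1 x), adm2_of_prs subset_rfl hQ, fun x hx => ?_⟩
  exact Prod.ext (e0 hx) (e1 hx)

open Classical in
/-- Step C: the functional -/
noncomputable def Thy.δ2 (𝒯 : Thy g p) (Tp Tm : Set Z) (h : H) (W' : Set Z)
    (P : Z → 𝒯.E × 𝒯.E) : ℤ :=
  if h' : ∃ Q, 𝒯.Adm2 Tp Tm h 𝒯.W Q ∧ EqOn Q P W' then
    𝒯.δ (fun x => (h'.choose x).1) - 𝒯.δ (fun x => (h'.choose x).2) else 0

/-- Step C (from descent) -/
theorem Thy.δ2_eq (𝒯 : Thy g p) {Tp Tm W' : Set Z} (h : H) (hTp : Cl g Tp) (hTm : Cl g Tm)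
    (hd : Disjoint Tp Tm) (hW' : Cl g W') (hW'W : W' ⊆ 𝒯.W) (hcov : 𝒯.W ⊆ W' ∪ (Tp ∪ Tm))
    {P Q : Z → 𝒯.E × 𝒯.E} (hQ : 𝒯.Adm2 Tp Tm h 𝒯.W Q) (hPQ : EqOn Q P W') :
    𝒯.δ2 Tp Tm h W' P = 𝒯.δ (fun x => (Q x).1) - 𝒯.δ (fun x => (Q x).2) := by
  have h' : ∃ Q, 𝒯.Adm2 Tp Tm h 𝒯.W Q ∧ EqOn Q P W' := ⟨Q, hQ, hPQ⟩
  unfold Thy.δ2
  rw [dif_pos h']
  obtain ⟨a1, a2⟩ := h'.choose_spec
  exact 𝒯.descent h hTp hTm hd hW' hW'W hcov a1.1 a1.2.1 hQ.1 hQ.2.1 a1.2.2 hQ.2.2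
    (fun x hx => (a2 hx).trans (hPQ hx).symm)

/-- Step C (helper58): the doubled theory -/
noncomputable def Thy.double (𝒯 : Thy g p) {Tp Tm W' : Set Z} (h : H) (hTp : Cl g Tp)
    (hTm : Cl g Tm) (hd : Disjoint Tp Tm) (hW' : Cl g W') (hW'W : W' ⊆ 𝒯.W)
    (hcov : 𝒯.W ⊆ W' ∪ (Tp ∪ Tm)) : Thy g p where
  E := 𝒯.E × 𝒯.E
  W := W'
  Adm := 𝒯.Adm2 Tp Tm h
  δ := 𝒯.δ2 Tp Tm h W'
  hW := hW'
  g0 := fun x hx => 𝒯.g0 x (hW'W hx)
  gadd := fun a b x hx => 𝒯.gadd a b x (hW'W hx)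
  sep := by
    intro C hC hCW
    obtain ⟨f, f1, f2, f3, f4⟩ := 𝒯.sep C hC (hCW.trans hW'W)
    exact ⟨f, f1.mono hW'W, fun x hx => f2 x (hW'W hx), fun x hx => f3 x (hW'W hx),
      fun k x hx => f4 k x (hW'W hx)⟩
  congr := fun hC hP he => hP.congr hC he
  mono := fun hP hC => hP.mono hC
  union := by
    intro C₁ C₂ P h1 h2 hP1 hP2
    refine ⟨𝒯.union h1 h2 hP1.1 hP2.1, 𝒯.union h1 h2 hP1.2.1 hP2.2.1, ?_, ?_⟩
    · rintro x (hx | hx) hp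
      · exact hP1.2.2.1 x hx hp
      · exact hP2.2.2.1 x hx hp
    · rintro x (hx | hx) hm
      · exact hP1.2.2.2 x hx hm
      · exact hP2.2.2.2 x hx hm
  act := by
    intro C P k hC hCW hP
    refine ⟨𝒯.act k hC (hCW.trans hW'W) hP.1, 𝒯.act k hC (hCW.trans hW'W) hP.2.1, ?_, ?_⟩
    · intro x hx hp
      exact hP.2.2.1 _ (hC.2 k x hx) (hTp.2 k x hp)
    · intro x hx hm
      have e : g k (g h x) = g h (g k x) := comm' 𝒯 k h (hW'W (hCW hx))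
      beta_reduce
      rw [e]
      exact hP.2.2.2 _ (hC.2 k x hx) (hTm.2 k x hm)
  ext := by
    intro C P hC hCW hP
    obtain ⟨Q, hQ, e⟩ := 𝒯.ext2 h hTp hTm hd hC (hCW.trans hW'W) hP
    exact ⟨Q, hQ.mono hW'W, e⟩
  d0 := by
    intro P P' hP he
    obtain ⟨Q, hQ, e⟩ := 𝒯.ext2 h hTp hTm hd hW' hW'W hP
    rw [𝒯.δ2_eq h hTp hTm hd hW' hW'W hcov hQ e,
      𝒯.δ2_eq h hTp hTm hd hW' hW'W hcov hQ (fun x hx => (e hx).trans (he hx))]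
  d1 := by
    intro P k hP
    obtain ⟨Q, hQ, e⟩ := 𝒯.ext2 h hTp hTm hd hW' hW'W hP
    have hQk : 𝒯.Adm2 Tp Tm h 𝒯.W (fun x => Q (g k x)) := by
      refine ⟨𝒯.act k 𝒯.hW subset_rfl hQ.1, 𝒯.act k 𝒯.hW subset_rfl hQ.2.1, ?_, ?_⟩
      · intro x hx hp
        exact hQ.2.2.1 _ (𝒯.hW.2 k x hx) (hTp.2 k x hp)
      · intro x hx hm
        have e : g k (g h x) = g h (g k x) := comm' 𝒯 k h hx
        beta_reduce
        rw [e]
        exact hQ.2.2.2 _ (𝒯.hW.2 k x hx) (hTm.2 k x hm)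
    rw [𝒯.δ2_eq h hTp hTm hd hW' hW'W hcov hQ e,
      𝒯.δ2_eq h hTp hTm hd hW' hW'W hcov hQk (fun x hx => e (hW'.2 k x hx))]
    have d1 := 𝒯.d1 k hQ.1
    have d2 := 𝒯.d1 k hQ.2.1
    rw [← d1, ← d2]
  d2 := by
    classical
    intro C₁ C₂ P P' Q Q' h1 h2 hcu hP hP' hQ hQ' a1 a2 a3 a4
    have hC1 : C₁ ⊆ W' := hcu ▸ subset_union_left
    have hC2 : C₂ ⊆ W' := hcu ▸ subset_union_right
    obtain ⟨f1, f1c, f1n, f1z, f1i⟩ := 𝒯.sep C₁ h1 (hC1.trans hW'W)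
    obtain ⟨f2, f2c, f2n, f2z, f2i⟩ := 𝒯.sep C₂ h2 (hC2.trans hW'W)
    set D1 : Set Z := {x | x ∈ 𝒯.W ∧ f1 x ≤ f2 x} with hD1
    set D2 : Set Z := {x | x ∈ 𝒯.W ∧ f2 x ≤ f1 x} with hD2
    have cD1 : Cl g D1 := by
      refine ⟨?_, ?_⟩
      · exact 𝒯.hW.1.isClosed_le f1c f2c
      · rintro k x ⟨hx, hx'⟩
        exact ⟨𝒯.hW.2 k x hx, by rw [f1i k x hx, f2i k x hx]; exact hx'⟩
    have cD2 : Cl g D2 := by
      refine ⟨?_, ?_⟩
      · exact 𝒯.hW.1.isClosed_le f2c f1c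
      · rintro k x ⟨hx, hx'⟩
        exact ⟨𝒯.hW.2 k x hx, by rw [f1i k x hx, f2i k x hx]; exact hx'⟩
    have hD1W : D1 ⊆ 𝒯.W := fun x hx => hx.1
    have hD2W : D2 ⊆ 𝒯.W := fun x hx => hx.1
    have hDu : D1 ∪ D2 = 𝒯.W := by
      apply subset_antisymm (union_subset hD1W hD2W)
      intro x hx
      rcases le_total (f1 x) (f2 x) with h | h
      · exact Or.inl ⟨hx, h⟩
      · exact Or.inr ⟨hx, h⟩
    have i1 : ∀ x ∈ W', x ∈ D1 → x ∈ C₁ := by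
      intro x hx hx1
      rw [← hcu] at hx
      rcases hx with hx | hx
      · exact hx
      · have z2 : f2 x = 0 := (f2z x hx1.1).2 hx
        have : f1 x = 0 := le_antisymm (by rw [← z2]; exact hx1.2) (f1n x hx1.1)
        exact (f1z x hx1.1).1 this
    have i2 : ∀ x ∈ W', x ∈ D2 → x ∈ C₂ := by
      intro x hx hx1
      rw [← hcu] at hx
      rcases hx with hx | hx
      · have z2 : f1 x = 0 := (f1z x hx1.1).2 hx
        have : f2 x = 0 := le_antisymm (by rw [← z2]; exact hx1.2) (f2n x hx1.1)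
        exact (f2z x hx1.1).1 this
      · exact hx
    have j1 : C₁ ⊆ D1 := fun x hx => by
      have hxW := hW'W (hC1 hx)
      exact ⟨hxW, by rw [(f1z x hxW).2 hx]; exact f2n x hxW⟩
    have j2 : C₂ ⊆ D2 := fun x hx => by
      have hxW := hW'W (hC2 hx)
      exact ⟨hxW, by rw [(f2z x hxW).2 hx]; exact f1n x hxW⟩
    -- extensions
    obtain ⟨R, hR, eR⟩ := 𝒯.ext2 h hTp hTm hd hW' hW'W hP
    obtain ⟨R', hR', eR'⟩ := 𝒯.ext2 h hTp hTm hd (Cl.union hW' cD2) (union_subset hW'W hD2W)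
      (Thy.Adm2.glue hW' cD2 hP' (hR.mono hD2W) (fun x hx hx' => by
        rw [eR hx]; exact (a1 (i2 x hx hx')).symm))
    obtain ⟨S, hS, eS⟩ := 𝒯.ext2 h hTp hTm hd (Cl.union hW' cD1) (union_subset hW'W hD1W)
      (Thy.Adm2.glue hW' cD1 hQ (hR.mono hD1W) (fun x hx hx' => by
        rw [eR hx]; exact (a3 (i1 x hx hx')).symm))
    have r1 : ∀ x ∈ W', R' x = P' x := fun x hx => by
      rw [eR' (Or.inl hx)]; beta_reduce; rw [if_pos hx]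
    have r2 : ∀ x ∈ D2, R' x = R x := fun x hx => by
      rw [eR' (Or.inr hx)]; beta_reduce
      split_ifs with h3
      · rw [eR h3]; exact (a1 (i2 x h3 hx)).symm
      · rfl
    have s1 : ∀ x ∈ W', S x = Q x := fun x hx => by
      rw [eS (Or.inl hx)]; beta_reduce; rw [if_pos hx]
    have s2 : ∀ x ∈ D1, S x = R x := fun x hx => by
      rw [eS (Or.inr hx)]; beta_reduce
      split_ifs with h3
      · rw [eR h3]; exact (a3 (i1 x h3 hx)).symm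
      · rfl
    obtain ⟨S', hS', t1, t2⟩ : ∃ S' : Z → 𝒯.E × 𝒯.E, 𝒯.Adm2 Tp Tm h 𝒯.W S' ∧
        (∀ x ∈ D1, S' x = R' x) ∧ ∀ x ∈ D2, S' x = S x := by
      have hS' := Thy.Adm2.glue cD1 cD2 (hR'.mono hD1W) (hS.mono hD2W) (fun x hx hx' => by
        rw [r2 x hx', s2 x hx])
      rw [hDu] at hS'
      refine ⟨_, hS', fun x hx => if_pos hx, fun x hx => ?_⟩
      beta_reduce
      split_ifs with h3
      · rw [r2 x hx, s2 x h3]
      · rfl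
    have t3 : ∀ x ∈ W', S' x = Q' x := by
      intro x hx
      have hx' := hx
      rw [← hcu] at hx'
      rcases hx' with hx' | hx'
      · rw [t1 x (j1 hx'), r1 x hx]; exact a4 hx'
      · rw [t2 x (j2 hx'), s1 x hx]; exact a2 hx'
    rw [𝒯.δ2_eq h hTp hTm hd hW' hW'W hcov hR eR, 𝒯.δ2_eq h hTp hTm hd hW' hW'W hcov hR' r1,
      𝒯.δ2_eq h hTp hTm hd hW' hW'W hcov hS s1, 𝒯.δ2_eq h hTp hTm hd hW' hW'W hcov hS' t3]
    have k1 := 𝒯.d2 cD1 cD2 hDu hR.1 hR'.1 hS.1 hS'.1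
      (fun x hx => by beta_reduce; rw [r2 x hx]) (fun x hx => by beta_reduce; rw [t2 x hx])
      (fun x hx => by beta_reduce; rw [s2 x hx]) (fun x hx => by beta_reduce; rw [t1 x hx])
    have k2 := 𝒯.d2 cD1 cD2 hDu hR.2.1 hR'.2.1 hS.2.1 hS'.2.1
      (fun x hx => by beta_reduce; rw [r2 x hx]) (fun x hx => by beta_reduce; rw [t2 x hx])
      (fun x hx => by beta_reduce; rw [s2 x hx]) (fun x hx => by beta_reduce; rw [t1 x hx])
    linarith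
  d3 := by
    classical
    intro P hP η hη
    obtain ⟨R, hR, eR⟩ := 𝒯.ext2 h hTp hTm hd hW' hW'W hP
    obtain ⟨η0, hη0, k0⟩ := 𝒯.d3 hR.1 η hη
    obtain ⟨η1, hη1, k1⟩ := 𝒯.d3 hR.2.1 (min η η0) (lt_min hη hη0)
    refine ⟨min η0 η1, lt_min hη0 hη1, ?_⟩
    intro C Q hC hCW hQ hdist
    have hS := str 𝒯 hTp hTm hd
    have hCW' := hCW.trans hW'W
    have hd1 : ∀ x ∈ C, dist (Q x).1 (R x).1 < min η0 η1 := fun x hx => by
      rw [eR (hCW hx)]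
      exact (le_max_left _ _).trans_lt (hdist x hx)
    have hd2 : ∀ x ∈ C, dist (Q x).2 (R x).2 < min η0 η1 := fun x hx => by
      rw [eR (hCW hx)]
      exact (le_max_right _ _).trans_lt (hdist x hx)
    obtain ⟨P1, b1, b2, b3, b4⟩ := k1 hC hCW' hQ.2.1 (fun x hx => (hd2 x hx).trans_le
      (min_le_right _ _))
    have hau := Prs.fst_aux hS hC (prs_of_adm2 hQ) b1 b2
    obtain ⟨P0, c1, c2, c3, c4⟩ := k0 (Cl.union hC (Cl.union hS.p hS.m))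
      (union_subset hCW' (union_subset hS.pW hS.mW)) hau (by
        intro x hx
        beta_reduce
        split_ifs with h1 h2
        · exact (hd1 x h1).trans_le (min_le_left _ _)
        · have : (R x).2 = (R x).1 := hR.2.2.1 x h2.2 h2.1
          rw [← this]
          exact (b3 x h2.2).trans_le (min_le_right _ _)
        · have h3 : x ∈ Tm ∩ 𝒯.W := (hx.resolve_left h1).resolve_left h2
          have : (R (g h x)).2 = (R x).1 := hR.2.2.2 x h3.2 h3.1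
          rw [← this]
          exact (b3 _ (𝒯.hW.2 h x h3.2)).trans_le (min_le_right _ _))
    have hprs : Prs 𝒯 (Tp ∩ 𝒯.W) (Tm ∩ 𝒯.W) h 𝒯.W P0 P1 := by
      refine ⟨c1, b1, ?_, ?_⟩
      · intro x hx hp
        rw [c2 (Or.inr (Or.inl hp))]
        beta_reduce
        split_ifs with h2
        · rw [b2 h2]; exact hQ.2.2.1 x h2 hp.1
        · rfl
      · intro x hx hm
        rw [c2 (Or.inr (Or.inr hm))]
        beta_reduce
        have h3 : x ∉ Tp ∩ 𝒯.W := fun h' => disjoint_left.1 hS.pm h' hm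
        rw [if_neg h3]
        split_ifs with h2
        · rw [b2 (hC.2 h x h2)]; exact hQ.2.2.2 x h2 hm.1
        · rfl
    have hadm := adm2_of_prs subset_rfl hprs
    refine ⟨fun x => (P0 x, P1 x), hadm.mono hW'W, ?_, ?_, ?_⟩
    · intro x hx
      apply Prod.ext
      · show P0 x = (Q x).1
        rw [c2 (Or.inl hx)]
        beta_reduce
        rw [if_pos hx]
      · exact b2 hx
    · intro x hx
      rw [← eR hx, Prod.dist_eq]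
      exact max_lt (c3 x (hW'W hx)) ((b3 x (hW'W hx)).trans_le (min_le_left _ _))
    · rw [𝒯.δ2_eq h hTp hTm hd hW' hW'W hcov hR eR,
        𝒯.δ2_eq h hTp hTm hd hW' hW'W hcov hadm (fun x _ => rfl), ← c4, ← b4]
  d4 := by
    intro C P k hC hCW hP η hη
    filter_upwards [𝒯.d4 k hC (hCW.trans hW'W) hP.1 η hη,
      𝒯.d4 k hC (hCW.trans hW'W) hP.2.1 η hη] with M h1 h2 x hx
    rw [Prod.dist_eq]
    exact max_lt (h1 x hx) (h2 x hx)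

end Pool.Agent.Helper83.RK2
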